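import Pool.Agent.MP_3ce0a0_al.H79.SpecG

/-! Nielsen's theorem: the elementary transformations generate the automorphism group of a
finitely generated free group (ping-pong with Dirichlet domains for the shortlex rank). -/

namespace Pool.Agent.MP_3ce0a0_al.H28

open FreeGroup Pool.Agent.MP_3ce0a0_al.H79

variable {ι : Type} [Fintype ι] [DecidableEq ι]

/-- the digit of a letter -/
noncomputable def dg (a : ι × Bool) : ℕ := (Fintype.equivFin (ι × Bool) a : ℕ) + 1

/-- the base -/
def bs (ι : Type) [Fintype ι] : ℕ := Fintype.card (ι × Bool) + 2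

/-- shortlex code of a word -/
noncomputable def rl (w : List (ι × Bool)) : ℕ := Nat.ofDigits (bs ι) (w.reverse.map dg)

/-- shortlex code of a group element -/
noncomputable def rk (g : FreeGroup ι) : ℕ := rl g.toWord

omit [DecidableEq ι] in
lemma one_lt_bs : 1 < bs ι := by unfold bs; omega

omit [DecidableEq ι] in
lemma digits_rl (w : List (ι × Bool)) : Nat.digits (bs ι) (rl w) = w.reverse.map dg := by
  apply Nat.digits_ofDigits _ one_lt_bs
  · intro l hl
    obtain ⟨a, -, rfl⟩ := List.mem_map.1 hl
    have := (Fintype.equivFin (ι × Bool) a).2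
    unfold dg bs; omega
  · intro h
    obtain ⟨a, -, e⟩ := List.mem_map.1 (List.getLast_mem h)
    rw [← e]; unfold dg; omega

omit [DecidableEq ι] in
lemma dg_inj : Function.Injective (dg : ι × Bool → ℕ) := fun a b h => by
  apply (Fintype.equivFin (ι × Bool)).injective
  apply Fin.ext
  unfold dg at h; omega

lemma rk_inj {g h : FreeGroup ι} (e : rk g = rk h) : g = h := by
  have h1 := digits_rl g.toWord
  unfold rk at e
  rw [e, digits_rl] at h1
  exact (toWord_injective (List.reverse_injective (List.map_injective_iff.2 dg_inj h1))).symm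

omit [DecidableEq ι] in
lemma rl_lt {w w' : List (ι × Bool)} (h : w.length < w'.length) : rl w < rl w' := by
  by_contra k
  have := Nat.le_length_digits_le (bs ι) _ _ (not_lt.1 k)
  rw [digits_rl, digits_rl] at this
  simp at this
  omega

omit [DecidableEq ι] in
lemma rl_append (w c : List (ι × Bool)) : rl (w ++ c) = rl c + bs ι ^ c.length * rl w := by
  simp [rl, Nat.ofDigits_append]

lemma rk_one : rk (1 : FreeGroup ι) = 0 := by simp [rk, rl]

/-- initial segment of reduced words -/
def Pre (g z : FreeGroup ι) : Prop := g.toWord <+: z.toWord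

omit [Fintype ι] in
lemma pre_word {g z : FreeGroup ι} (h : Pre g z) :
    z.toWord = g.toWord ++ (g⁻¹ * z).toWord := by
  obtain ⟨t, ht⟩ := h
  have r0 : IsReduced (g.toWord ++ t) := ht ▸ isReduced_toWord
  have r : IsReduced t := List.IsChain.right_of_append r0
  have e : z = g * mk t := by
    conv_lhs => rw [← mk_toWord (x := z), ← ht, ← mul_mk, mk_toWord]
  have : g⁻¹ * z = mk t := by rw [e]; group
  rw [this, toWord_mk, r.reduce_eq, ht]

lemma mul_lt {g z h : FreeGroup ι} (p : Pre g z) (l : rk h < rk g) :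
    rk (h * (g⁻¹ * z)) < rk z := by
  have e := pre_word p
  set t := g⁻¹ * z
  have s := toWord_mul_sublist h t
  have hl : h.toWord.length ≤ g.toWord.length := by
    by_contra k
    exact absurd (rl_lt (not_le.1 k)) (not_lt.2 l.le)
  rcases s.length_le.eq_or_lt with k | k
  · unfold rk at l ⊢
    rw [s.eq_of_length k, e, rl_append, rl_append]
    have : 0 < bs ι ^ t.toWord.length := pow_pos (by have := one_lt_bs (ι := ι); omega) _
    have := Nat.mul_lt_mul_of_pos_left l this
    omega
  · apply rl_lt
    rw [e]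
    simp only [List.length_append] at k ⊢
    omega

lemma pre_le {g z : FreeGroup ι} (p : Pre g z) : rk g ≤ rk z := by
  rcases (List.IsPrefix.length_le p).eq_or_lt with k | k
  · unfold rk
    rw [List.IsPrefix.eq_of_length p k]
  · exact (rl_lt k).le

/-- the group element of a letter -/
def lt (a : ι × Bool) : FreeGroup ι := mk [a]

omit [Fintype ι] in
lemma lt_word (a : ι × Bool) : (lt a).toWord = [a] := rfl

omit [Fintype ι] [DecidableEq ι] in
lemma lt_inv (a : ι × Bool) : (lt a)⁻¹ = lt (a.1, !a.2) := by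
  simp [lt, inv_mk, invRev]

omit [Fintype ι] [DecidableEq ι] in
lemma lt_true (i : ι) : lt (i, true) = of i := rfl

omit [Fintype ι] [DecidableEq ι] in
lemma lt_false (i : ι) : lt (i, false) = (of i)⁻¹ := (lt_inv (i, true)).symm

omit [Fintype ι] in
lemma word_mul {g t : FreeGroup ι} (h : IsReduced (g.toWord ++ t.toWord)) :
    (g * t).toWord = g.toWord ++ t.toWord := by
  rw [toWord_mul, h.reduce_eq]

omit [Fintype ι] [DecidableEq ι] in
lemma red_two {x y : ι × Bool} (h : x ≠ (y.1, !y.2)) : x.1 = y.1 → x.2 = y.2 := by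
  obtain ⟨a, b⟩ := x
  obtain ⟨c, d⟩ := y
  rintro (rfl : a = c)
  cases b <;> cases d <;> simp_all

omit [Fintype ι] in
lemma last_letter {z : FreeGroup ι} (h : z ≠ 1) :
    ∃ z' y, z = z' * lt y ∧ z.toWord = z'.toWord ++ [y] := by
  rcases List.eq_nil_or_concat z.toWord with e | ⟨w, y, e⟩
  · exact absurd (toWord_eq_nil_iff.1 e) h
  · rw [List.concat_eq_append] at e
    have r0 : IsReduced (w ++ [y]) := e ▸ isReduced_toWord
    have r : IsReduced w := List.IsChain.left_of_append r0
    refine ⟨mk w, y, ?_, ?_⟩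
    · rw [lt, mul_mk, ← e, mk_toWord]
    · rw [toWord_mk, r.reduce_eq, e]

omit [Fintype ι] in
lemma mul_letter (g : FreeGroup ι) (y : ι × Bool) :
    (g * lt y).toWord = g.toWord ++ [y] ∨ g.toWord = (g * lt y).toWord ++ [(y.1, !y.2)] := by
  by_cases h : g = 1
  · left; subst h; simp [lt_word]
  obtain ⟨g', x, e1, e2⟩ := last_letter h
  by_cases k : x = (y.1, !y.2)
  · right
    have : g * lt y = g' := by rw [e1, k, ← lt_inv]; group
    rw [this, e2, k]
  · left
    apply word_mul
    rw [e2, lt_word]
    refine IsReduced.append_overlap (e2 ▸ isReduced_toWord) ?_ (by simp)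
    exact isReduced_cons_cons.2 ⟨red_two k, IsReduced.singleton⟩

omit [Fintype ι] in
lemma dich {z' p : FreeGroup ι} {y : ι × Bool} {q : List (ι × Bool)}
    (h1 : (z' * lt y).toWord = z'.toWord ++ [y]) (h2 : p.toWord = q ++ [(y.1, !y.2)])
    (t : FreeGroup ι) : Pre (z' * lt y) (z' * t) ∨ Pre p (p * t) := by
  have rt := isReduced_toWord (x := t)
  rcases e : t.toWord with _ | ⟨x, s⟩
  · right
    rw [toWord_eq_nil_iff.1 e, mul_one]
    exact List.prefix_refl _
  · rw [e] at rt
    by_cases k : x = y
    · left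
      subst k
      have r : IsReduced (z'.toWord ++ t.toWord) := by
        have := IsReduced.append_overlap (L₁ := z'.toWord) (L₂ := [x]) (L₃ := s)
          (h1 ▸ isReduced_toWord) rt (by simp)
        simpa [e] using this
      unfold Pre
      rw [word_mul r, h1, e]
      exact ⟨s, by simp⟩
    · right
      have r : IsReduced (p.toWord ++ t.toWord) := by
        rw [h2, e]
        refine IsReduced.append_overlap (h2 ▸ isReduced_toWord) ?_ (by simp)
        refine isReduced_cons_cons.2 ⟨red_two ?_, rt⟩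
        intro c
        apply k
        obtain ⟨a, b⟩ := x
        obtain ⟨c', d⟩ := y
        simp_all
      unfold Pre
      rw [word_mul r]
      exact List.prefix_append _ _

/-- the elements that `v⁻¹` moves down -/
def A (v z : FreeGroup ι) : Prop := rk (v⁻¹ * z) < rk z

lemma not_A_one (v : FreeGroup ι) : ¬ A v 1 := by simp [A, rk_one]

lemma A.ne_one {v z : FreeGroup ι} (h : A v z) : v ≠ 1 := by
  rintro rfl
  simp [A] at h

lemma lt_of_not_A {v z : FreeGroup ι} (hv : v ≠ 1) (h : ¬ A v z) : rk z < rk (v⁻¹ * z) := by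
  refine lt_of_le_of_ne (not_lt.1 h) fun e => hv ?_
  have := rk_inj e
  simpa using this

lemma A.pre {v k g : FreeGroup ι} (h : A v k) (p : Pre k g) : A v g := by
  have := mul_lt p h
  simpa [A, mul_assoc] using this

lemma edge_word {v z' : FreeGroup ι} {y : ι × Bool} (h1 : ¬ A v z') (h2 : A v (z' * lt y)) :
    (v⁻¹ * z').toWord = (v⁻¹ * (z' * lt y)).toWord ++ [(y.1, !y.2)] := by
  rcases mul_letter (v⁻¹ * z') y with e | e
  · exfalso
    have p : Pre (v⁻¹ * z') (v⁻¹ * z' * lt y) := by
      unfold Pre; rw [e]; exact List.prefix_append _ _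
    have := mul_lt p (lt_of_not_A h2.ne_one h1)
    unfold A at h2
    rw [inv_mul_cancel_left, mul_assoc] at this
    omega
  · rw [e, mul_assoc]

lemma edge_cases {v z' : FreeGroup ι} {y : ι × Bool}
    (h0 : (z' * lt y).toWord = z'.toWord ++ [y]) (h1 : ¬ A v z') (h2 : A v (z' * lt y))
    (g : FreeGroup ι) : Pre (z' * lt y) g ∨ Pre (v⁻¹ * z') (v⁻¹ * g) := by
  have := dich h0 (edge_word h1 h2) (z'⁻¹ * g)
  simpa [mul_assoc] using this

/-- the weight -/
noncomputable def W (v : FreeGroup ι) : ℕ := ⨅ g, (2 ^ rk g + 2 ^ rk (v⁻¹ * g))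

lemma W_le (v g : FreeGroup ι) : W v ≤ 2 ^ rk g + 2 ^ rk (v⁻¹ * g) :=
  ciInf_le (OrderBot.bddBelow _) g

lemma W_eq (v : FreeGroup ι) : ∃ g, 2 ^ rk g + 2 ^ rk (v⁻¹ * g) = W v :=
  Nat.sInf_mem (Set.range_nonempty fun g : FreeGroup ι => 2 ^ rk g + 2 ^ rk (v⁻¹ * g))

lemma W_inv_le (v : FreeGroup ι) : W v⁻¹ ≤ W v := by
  obtain ⟨g, e⟩ := W_eq v
  have := W_le v⁻¹ (v⁻¹ * g)
  simp only [inv_inv, mul_inv_cancel_left] at this
  omega

lemma W_inv (v : FreeGroup ι) : W v⁻¹ = W v :=
  le_antisymm (W_inv_le v) (by simpa using W_inv_le v⁻¹)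

lemma W_le' (u v g : FreeGroup ι) : W (u⁻¹ * v) ≤ 2 ^ rk (u⁻¹ * g) + 2 ^ rk (v⁻¹ * g) := by
  simpa [mul_assoc] using W_le (u⁻¹ * v) (u⁻¹ * g)

lemma two_pow {a b : ℕ} (h : a < b) : 2 * 2 ^ a ≤ 2 ^ b := by
  rw [← pow_succ']
  exact Nat.pow_le_pow_right (by norm_num) h

lemma step {u v z' : FreeGroup ι} {y : ι × Bool}
    (h0 : (z' * lt y).toWord = z'.toWord ++ [y]) (h1 : ¬ A v z') (h2 : A v (z' * lt y))
    (h3 : A u (z' * lt y))
    (h4 : A u z' ∨ rk (u⁻¹ * (z' * lt y)) < rk (v⁻¹ * (z' * lt y))) : W (u⁻¹ * v) < W v := by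
  obtain ⟨g, e⟩ := W_eq v
  have pos : ∀ n : ℕ, 0 < 2 ^ n := fun n => pow_pos (by norm_num) n
  have key : A u g → W (u⁻¹ * v) < W v := fun k => by
    have a1 := W_le' u v g
    have a2 := two_pow k
    have := pos (rk (u⁻¹ * g))
    omega
  rcases edge_cases h0 h1 h2 g with p | p
  · exact key (h3.pre p)
  rcases h4 with k | k
  · rcases (pre_le p).eq_or_lt with l | l
    · have : z' = g := by simpa using rk_inj l
      exact key (this ▸ k)
    · have a1 := W_le' u v z'
      have a2 := two_pow k
      have a3 := two_pow l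
      have a4 := two_pow (lt_of_not_A h2.ne_one h1)
      have := pos (rk g)
      omega
  · have a1 := W_le' u v (z' * lt y)
    have a2 := two_pow k
    have a3 : rk (v⁻¹ * (z' * lt y)) < rk (v⁻¹ * z') := by
      apply rl_lt
      rw [edge_word h1 h2]
      simp
    have a4 := two_pow (a3.trans_le (pre_le p))
    have := pos (rk g)
    omega

lemma split {v z : FreeGroup ι} (h : A v z) :
    ∃ z' y, z = z' * lt y ∧ (z' * lt y).toWord = z'.toWord ++ [y] ∧ rk z' < rk z := by
  have hz : z ≠ 1 := by
    rintro rfl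
    exact not_A_one v h
  obtain ⟨z', y, e1, e2⟩ := last_letter hz
  refine ⟨z', y, e1, e1 ▸ e2, rl_lt ?_⟩
  rw [e2]
  simp

lemma shorten {u v : FreeGroup ι} (h : u ≠ v) (z : FreeGroup ι) (hu : A u z) (hv : A v z) :
    W (u⁻¹ * v) < W v ∨ W (v⁻¹ * u) < W u := by
  induction hn : rk z using Nat.strong_induction_on generalizing z with
  | _ n ih =>
  obtain ⟨z', y, rfl, h0, hl⟩ := split hu
  by_cases k1 : A u z' <;> by_cases k2 : A v z'
  · exact ih _ (hn ▸ hl) z' k1 k2 rfl
  · exact Or.inl (step h0 k2 hv hu (Or.inl k1))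
  · exact Or.inr (step h0 k1 hu hv (Or.inl k2))
  · rcases lt_trichotomy (rk (u⁻¹ * (z' * lt y))) (rk (v⁻¹ * (z' * lt y))) with l | l | l
    · exact Or.inl (step h0 k2 hv hu (Or.inr l))
    · exact absurd (by simpa using rk_inj l) h
    · exact Or.inr (step h0 k1 hu hv (Or.inr l))

lemma step_inv {v z' : FreeGroup ι} {y : ι × Bool}
    (h0 : (z' * lt y).toWord = z'.toWord ++ [y]) (h1 : ¬ A v z') (h2 : A v (z' * lt y))
    (h3 : A v⁻¹ (z' * lt y)) : False := by
  unfold A at h3
  rw [inv_inv] at h3
  rcases edge_cases h0 h1 h2 (v * (z' * lt y)) with p | p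
  · exact absurd (pre_le p) (not_le.2 h3)
  · rw [inv_mul_cancel_left] at p
    unfold Pre at p
    rw [h0] at p
    rcases List.prefix_concat_iff.1 p with e | e
    · rw [edge_word h1 h2] at e
      have := (List.append_inj' e rfl).2
      obtain ⟨a, b⟩ := y
      simp at this
    · exact absurd (pre_le e) (not_le.2 (lt_of_not_A h2.ne_one h1))

lemma disj_inv (v z : FreeGroup ι) (h1 : A v z) (h2 : A v⁻¹ z) : False := by
  induction hn : rk z using Nat.strong_induction_on generalizing z with
  | _ n ih =>
  obtain ⟨z', y, rfl, h0, hl⟩ := split h1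
  by_cases k1 : A v z'
  · by_cases k2 : A v⁻¹ z'
    · exact ih _ (hn ▸ hl) z' k1 k2 rfl
    · exact step_inv h0 k2 h2 (by simpa using h1)
  · exact step_inv h0 k1 h1 h2

omit [Fintype ι] in
lemma lt_inj : Function.Injective (lt : ι × Bool → FreeGroup ι) := fun a b h => by
  have := congrArg toWord h
  simpa [lt_word] using this

omit [Fintype ι] in
lemma lt_ne_one (a : ι × Bool) : lt a ≠ 1 := fun h => by
  have := congrArg toWord h
  simp [lt_word] at this

lemma pingpong {β : MulAut (FreeGroup ι)}
    (hd : ∀ a b z, A (β (lt a)) z → A (β (lt b)) z → a = b) (w : List (ι × Bool)) :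
    ∀ a, IsReduced (a :: w) → A (β (lt a)) (β (mk (a :: w))) := by
  have st : ∀ a (x : FreeGroup ι), ¬ A (β (lt (a.1, !a.2))) x → A (β (lt a)) (β (lt a) * x) := by
    intro a x h
    have := lt_of_not_A (by simpa using lt_ne_one _) h
    rw [← lt_inv] at this
    simpa [A] using this
  induction w with
  | nil =>
    intro a _
    simpa [lt] using st a 1 (not_A_one _)
  | cons b w ih =>
    intro a r
    obtain ⟨r1, r2⟩ := isReduced_cons_cons.1 r
    have e : mk (a :: b :: w) = lt a * mk (b :: w) := by rw [lt, mul_mk]; rfl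
    rw [e, _root_.map_mul]
    refine st a _ fun k => ?_
    have := hd _ _ _ k (ih b r2)
    subst this
    simp at r1

lemma letters {β : MulAut (FreeGroup ι)}
    (hd : ∀ a b z, A (β (lt a)) z → A (β (lt b)) z → a = b) (i : ι) :
    ∃ y, β (of i) = lt y := by
  have ex : ∀ y, ∃ a, A (β (lt a)) (lt y) := fun y => by
    have rt := isReduced_toWord (x := β.symm (lt y))
    rcases e : (β.symm (lt y)).toWord with _ | ⟨a, w⟩
    · exact absurd (by simpa using toWord_eq_nil_iff.1 e) (lt_ne_one y)
    · refine ⟨a, ?_⟩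
      have := pingpong hd w a (e ▸ rt)
      rwa [← e, mk_toWord, MulEquiv.apply_symm_apply] at this
  choose f hf using ex
  have h0 : ∀ y : ι × Bool, (1 * lt y).toWord = (1 : FreeGroup ι).toWord ++ [y] := fun y => by
    simp [lt_word]
  have inj : Function.Injective f := fun y y' e => by
    have a1 := hf y
    have a2 := hf y'
    rw [← e] at a2
    rcases edge_cases (h0 y) (not_A_one _) (by simpa using a1) (lt y') with p | p
    · unfold Pre at p
      simp only [one_mul, lt_word] at p
      simpa using List.IsPrefix.eq_of_length p rfl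
    · have := mul_lt p (lt_of_not_A a1.ne_one (not_A_one _))
      unfold A at a2
      simp only [mul_one, inv_inv, mul_inv_cancel_left, one_mul] at this
      omega
  have surj := Finite.surjective_of_injective inj
  obtain ⟨y, e1⟩ := surj (i, true)
  obtain ⟨y', e2⟩ := surj (i, false)
  have a1 := hf y
  have a2 := hf y'
  rw [e1, lt_true] at a1
  rw [e2, lt_false, _root_.map_inv] at a2
  have a1' : A (β (of i)) (1 * lt y) := by simpa using a1
  refine ⟨y, ?_⟩
  rcases edge_cases (h0 y) (not_A_one _) a1' (β (of i) * lt y') with p | p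
  · have := a1'.pre p
    unfold A at this a2
    simp only [inv_inv, inv_mul_cancel_left] at this a2
    omega
  · have l := List.IsPrefix.length_le p
    rw [edge_word (not_A_one _) a1', inv_mul_cancel_left, lt_word] at l
    simp only [List.length_append, List.length_singleton, one_mul] at l
    have : ((β (of i))⁻¹ * lt y).toWord = [] := List.length_eq_zero_iff.1 (by omega)
    exact inv_mul_eq_one.1 (toWord_eq_nil_iff.1 this)

omit [Fintype ι] [DecidableEq ι] in
lemma aut_ext {f g : MulAut (FreeGroup ι)} (h : ∀ c, f (of c) = g (of c)) : f = g :=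
  MulEquiv.toMonoidHom_injective (FreeGroup.ext_hom _ _ h)

/-- An automorphism from two mutually inverse substitutions. -/
def mkA (f g : ι → FreeGroup ι) (h1 : ∀ c, lift g (f c) = of c) (h2 : ∀ c, lift f (g c) = of c) :
    MulAut (FreeGroup ι) :=
  MonoidHom.toMulEquiv (lift f) (lift g) (FreeGroup.ext_hom _ _ (by simpa using h1))
    (FreeGroup.ext_hom _ _ (by simpa using h2))

/-- inversion of one generator -/
def ep (a : ι) : MulAut (FreeGroup ι) :=
  mkA (fun c => if c = a then (of c)⁻¹ else of c) (fun c => if c = a then (of c)⁻¹ else of c)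
    (fun c => by by_cases h : c = a <;> simp [h]) fun c => by by_cases h : c = a <;> simp [h]

/-- right transvection -/
def rh {a b : ι} (h : a ≠ b) : MulAut (FreeGroup ι) :=
  mkA (fun c => if c = a then of a * of b else of c)
    (fun c => if c = a then of a * (of b)⁻¹ else of c)
    (fun c => by by_cases k : c = a <;> simp [k, Ne.symm h])
    fun c => by by_cases k : c = a <;> simp [k, Ne.symm h]

omit [Fintype ι] in
lemma ep_of (a c : ι) : ep a (of c) = if c = a then (of c)⁻¹ else of c := by simp [ep, mkA]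

omit [Fintype ι] in
lemma rh_of {a b : ι} (h : a ≠ b) (c : ι) :
    rh h (of c) = if c = a then of a * of b else of c := by simp [rh, mkA]

omit [Fintype ι] in
lemma rh_inv {a b : ι} (h : a ≠ b) (c : ι) :
    (rh h).symm (of c) = if c = a then of a * (of b)⁻¹ else of c := by simp [rh, mkA]

theorem sniel : SNiel := by
  intro ι _ _ H hρ hε hπ
  have mε : ∀ a : ι, ep a ∈ H := fun a =>
    hε _ a (by simp [ep_of]) fun c k => by simp [ep_of, k]
  have mρ : ∀ {a b : ι} (h : a ≠ b), rh h ∈ H := fun {a b} h =>
    hρ _ a b h (by simp [rh_of]) fun c k => by simp [rh_of, k]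
  have signs : ∀ (s : Finset ι) (γ : MulAut (FreeGroup ι)),
      (∀ i, γ (of i) = of i ∨ (γ (of i) = (of i)⁻¹ ∧ i ∈ s)) → γ ∈ H := by
    intro s
    induction s using Finset.induction_on with
    | empty => exact fun γ h => hπ γ 1 fun c => by simpa using h c
    | insert a s _ ih =>
      intro γ h
      by_cases k : γ (of a) = of a
      · refine ih γ fun i => ?_
        rcases h i with l | ⟨l1, l2⟩
        · exact Or.inl l
        · rcases Finset.mem_insert.1 l2 with rfl | l2
          · exact Or.inl k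
          · exact Or.inr ⟨l1, l2⟩
      · refine (H.mul_mem_cancel_right (mε a)).1 (ih _ fun i => ?_)
        by_cases l : i = a
        · subst l
          left
          simp [ep_of, ((h i).resolve_left k).1]
        · simpa [ep_of, l] using h i
  have perm : ∀ β : MulAut (FreeGroup ι), (∀ i, ∃ y, β (of i) = lt y) → β ∈ H := by
    intro β h
    choose y hy using h
    have inj : Function.Injective fun i => (y i).1 := fun i j e => by
      by_cases k : y i = (((y j).1, !(y j).2) : ι × Bool)
      · have : β (lt (i, true)) = β (lt (j, false)) := by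
          rw [lt_true, lt_false, _root_.map_inv, hy, hy, k, lt_inv]
        simpa using lt_inj (β.injective this)
      · have : y i = y j := Prod.ext e (red_two k e)
        have : β (lt (i, true)) = β (lt (j, true)) := by rw [lt_true, lt_true, hy, hy, this]
        simpa using lt_inj (β.injective this)
    let σ : Equiv.Perm ι := Equiv.ofBijective _ (Finite.injective_iff_bijective.1 inj)
    have m : (freeGroupCongr σ.symm : MulAut (FreeGroup ι)) ∈ H :=
      hπ _ σ.symm fun c => by simp
    refine (H.mul_mem_cancel_left m).1 (signs Finset.univ _ fun i => ?_)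
    have e : σ.symm (y i).1 = i := σ.symm_apply_apply i
    rcases k : y i with ⟨j, _ | _⟩
    · right
      rw [k] at e
      simp only at e
      simp [hy, k, lt_false, e]
    · left
      rw [k] at e
      simp only at e
      simp [hy, k, lt_true, e]
  have move : ∀ a b : ι × Bool, a.1 ≠ b.1 → ∃ ν ∈ H, ν (lt b) = (lt a)⁻¹ * lt b ∧
      ∀ c, c ≠ b.1 → ν (of c) = of c := by
    rintro ⟨i, s⟩ ⟨j, t⟩ (h : i ≠ j)
    cases s <;> cases t
    · exact ⟨_, H.inv_mem (mρ h.symm), by simp [lt_false, rh_inv], fun c k => by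
        simp [rh_inv, show c ≠ j from k]⟩
    · exact ⟨_, H.mul_mem (H.mul_mem (mε j) (H.inv_mem (mρ h.symm))) (mε j),
        by simp [lt_false, lt_true, rh_inv, ep_of, h], fun c k => by
        simp [rh_inv, ep_of, show c ≠ j from k]⟩
    · exact ⟨_, mρ h.symm, by simp [lt_false, lt_true, rh_of], fun c k => by
        simp [rh_of, show c ≠ j from k]⟩
    · exact ⟨_, H.mul_mem (H.mul_mem (mε j) (mρ h.symm)) (mε j),
        by simp [lt_true, rh_of, ep_of, h], fun c k => by
        simp [rh_of, ep_of, show c ≠ j from k]⟩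
  have wl : ∀ (β : MulAut (FreeGroup ι)) (b : ι × Bool), W (β (of b.1)) = W (β (lt b)) := by
    rintro β ⟨j, _ | _⟩
    · rw [lt_false, _root_.map_inv, W_inv]
    · rw [lt_true]
  suffices all : ∀ (n : ℕ) (β : MulAut (FreeGroup ι)), ∑ i, W (β (of i)) = n → β ∈ H from
    eq_top_iff.2 fun β _ => all _ β rfl
  intro n
  induction n using Nat.strong_induction_on with
  | _ n ih =>
  intro β hn
  have down : ∀ a b : ι × Bool, a.1 ≠ b.1 →
      W ((β (lt a))⁻¹ * β (lt b)) < W (β (lt b)) → β ∈ H := by
    intro a b h l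
    obtain ⟨ν, m, e1, e2⟩ := move a b h
    refine (H.mul_mem_cancel_right m).1 (ih _ ?_ _ rfl)
    rw [← hn]
    have lb : W ((β * ν) (of b.1)) < W (β (of b.1)) := by
      rw [wl, wl]
      simpa [e1] using l
    refine Finset.sum_lt_sum (fun c _ => ?_) ⟨b.1, Finset.mem_univ _, lb⟩
    by_cases k : c = b.1
    · rw [k]; exact lb.le
    · simp [e2 c k]
  by_contra hβ
  refine hβ (perm β (letters fun a b z h1 h2 => ?_))
  by_contra k
  by_cases l : a.1 = b.1
  · have : a = (b.1, !b.2) := by
      by_contra c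
      exact k (Prod.ext l (red_two c l))
    rw [this, ← lt_inv, _root_.map_inv] at h1
    exact disj_inv _ _ h2 h1
  · rcases shorten (fun e => k (lt_inj (β.injective e))) z h1 h2 with d | d
    · exact hβ (down a b l d)
    · exact hβ (down b a (Ne.symm l) d)

end Pool.Agent.MP_3ce0a0_al.H28
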