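import Pool.Agent.MP_3ce0a0_al.H79.XS
import Pool.Agent.MP_3ce0a0_al.H79.XG

/-! Semisimple parts of endomorphisms with unipotent square, and the Steinberg involutions. -/

namespace Pool.Agent.MP_3ce0a0_al.H28

open Equiv Module Polynomial Pool.Agent.MP_3ce0a0_al.H62.Inst
open Pool.Agent.MP_3ce0a0_al.H79 Pool.Agent.MP_3ce0a0_al.H79.X

variable {H : Type} [AddCommGroup H] [Module ℂ H]

theorem uni_mul {u v : End ℂ H} (hu : Uni u) (hv : Uni v) (h : Commute u v) : Uni (u * v) := by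
  have e : u * v - 1 = (u - 1) * v + (v - 1) := by noncomm_ring
  have c : Commute (u - 1) v := h.sub_left (Commute.one_left v)
  rw [Uni, e]
  exact ((c.mul_left (Commute.refl v)).sub_right (Commute.one_right _)).isNilpotent_add
    (c.isNilpotent_mul_right hu) hv

theorem sg_sq {s f : End ℂ H} (h : IsSg s f) : Uni (f ^ 2) := by
  have e : s * f * (s * f) = f ^ 2 := by
    rw [mul_assoc, ← mul_assoc f, ← h.2.1.eq, mul_assoc, ← mul_assoc, h.1, one_mul, sq]
  exact e ▸ uni_mul h.2.2 h.2.2 (Commute.refl _)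

theorem sg_ex {f : End ℂ H} (h : Uni (f ^ 2)) : ∃ s ∈ Algebra.adjoin ℂ {f}, IsSg s f := by
  obtain ⟨k, hk⟩ := h
  have hc : IsCoprime (X - 1 : ℂ[X]) (X + 1) :=
    ⟨-C (1 / 2), C (1 / 2), by
      have : (C (1 / 2 : ℂ) : ℂ[X]) * 2 = 1 := by
        rw [show (2 : ℂ[X]) = C 2 from rfl, ← C_mul]; norm_num
      linear_combination this⟩
  obtain ⟨a, b, hab⟩ := hc.pow (m := k) (n := k)
  have h0 : ∀ c : ℂ[X], aeval f (c * ((X - 1) ^ k * (X + 1) ^ k)) = 0 := fun c => by
    rw [← mul_pow, show (X - 1 : ℂ[X]) * (X + 1) = X ^ 2 - 1 by ring, map_mul, map_pow, map_sub,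
      map_pow, aeval_X, map_one, hk, mul_zero]
  have cm : ∀ p q : ℂ[X], Commute (aeval f p) (aeval f q) := fun p q => (Commute.all p q).map _
  refine ⟨aeval f (b * (X + 1) ^ k - a * (X - 1) ^ k), aeval_mem_adjoin_singleton ℂ f, ?_, ?_, ?_⟩
  · rw [← map_mul, ← sub_eq_zero, ← map_one (aeval f : ℂ[X] →ₐ[ℂ] End ℂ H), ← map_sub,
      ← h0 (-4 * a * b)]
    congr 1
    linear_combination (a * (X - 1) ^ k + b * (X + 1) ^ k + 1) * hab
  · have := cm (b * (X + 1) ^ k - a * (X - 1) ^ k) X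
    rwa [aeval_X] at this
  · have e : aeval f (b * (X + 1) ^ k - a * (X - 1) ^ k) * f - 1 =
        aeval f (b * (X + 1) ^ k * (X - 1)) - aeval f (a * (X - 1) ^ k * (X + 1)) := by
      rw [← map_sub, show b * (X + 1) ^ k * (X - 1) - a * (X - 1) ^ k * (X + 1) =
        (b * (X + 1) ^ k - a * (X - 1) ^ k) * X - 1 by linear_combination -hab,
        map_sub _ (_ * X), map_mul _ _ X, aeval_X, map_one]
    rw [Uni, e]
    refine (cm _ _).isNilpotent_sub ⟨k + 1, ?_⟩ ⟨k + 1, ?_⟩
    · rw [← map_pow, ← h0 (b ^ (k + 1) * ((X + 1) ^ k) ^ k * (X - 1))]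
      congr 1
      rw [mul_pow, mul_pow]; ring
    · rw [← map_pow, ← h0 (a ^ (k + 1) * ((X - 1) ^ k) ^ k * (X + 1))]
      congr 1
      rw [mul_pow, mul_pow]; ring

theorem sg_eq {s t f : End ℂ H} (hs : IsSg s f) (ht : IsSg t f) (h : Commute s t) : s = t := by
  have c1 : Commute (s - t) f := hs.2.1.sub_left ht.2.1
  have c2 : Commute (s * f) (t * f) :=
    (h.mul_right hs.2.1).mul_left (ht.2.1.symm.mul_right (Commute.refl f))
  have n1 : IsNilpotent ((s - t) * f) := by
    rw [show (s - t) * f = (s * f - 1) - (t * f - 1) by noncomm_ring]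
    exact ((c2.sub_left (Commute.one_left _)).sub_right (Commute.one_right _)).isNilpotent_sub
      hs.2.2 ht.2.2
  have c3 : Commute (s - t) (f ^ 2 - 1) := (c1.pow_right 2).sub_right (Commute.one_right _)
  have n2 : IsNilpotent (s - t) := by
    have e : s - t = (s - t) * f * f - (s - t) * (f ^ 2 - 1) := by noncomm_ring
    have c4 : Commute f ((s - t) * (f ^ 2 - 1)) := c1.symm.mul_right
      (((Commute.refl f).pow_right 2).sub_right (Commute.one_right _))
    rw [e]
    exact ((((Commute.refl _).mul_right c3).mul_left c4).mul_left c4).isNilpotent_sub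
      ((c1.mul_left (Commute.refl f)).isNilpotent_mul_right n1) (c3.isNilpotent_mul_left (sg_sq hs))
  have e3 : (s - t) ^ 2 * (s - t) = (4 : ℂ) • (s - t) := by
    have e1 : (s - t) ^ 2 = 2 - 2 * (s * t) := by
      rw [sq, sub_mul, mul_sub, mul_sub, hs.1, ht.1, ← h.eq, two_mul, ← one_add_one_eq_two]; abel
    have e2 : s * t * s = t := by rw [mul_assoc, ← h.eq, ← mul_assoc, hs.1, one_mul]
    have e2' : s * t * t = s := by rw [mul_assoc, ht.1, mul_one]
    rw [e1, sub_mul, mul_assoc, mul_sub (s * t), e2, e2', Algebra.smul_def, map_ofNat]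
    noncomm_ring
  have e4 : ∀ n : ℕ, ((s - t) ^ 2) ^ n * (s - t) = (4 : ℂ) ^ n • (s - t) := fun n => by
    induction n with
    | zero => simp
    | succ n ih => rw [pow_succ, mul_assoc, e3, mul_smul_comm, ih, smul_smul, pow_succ']
  obtain ⟨n, hn⟩ := n2
  have := e4 n
  rw [← pow_mul, mul_comm 2, pow_mul, hn, sq, zero_mul, zero_mul, eq_comm,
    smul_eq_zero_iff_right (pow_ne_zero _ (by norm_num))] at this
  exact sub_eq_zero.1 this

theorem sg_mem {s f : End ℂ H} (h : IsSg s f) : s ∈ Algebra.adjoin ℂ {f} := by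
  obtain ⟨t, ht, h'⟩ := sg_ex (sg_sq h)
  rwa [sg_eq h h' (Algebra.commute_of_mem_adjoin_singleton_of_commute ht h.2.1)]

theorem sg_comm {s f x : End ℂ H} (h : IsSg s f) (hx : Commute x f) : Commute x s :=
  Algebra.commute_of_mem_adjoin_singleton_of_commute (sg_mem h) hx

theorem sg_keeps {s f : End ℂ H} (h : IsSg s f) {Q : Submodule ℂ H} (hQ : Keeps f Q) :
    Keeps s Q := by
  have := sg_mem h
  clear h
  induction this using Algebra.adjoin_induction with
  | mem x hx => exact Set.mem_singleton_iff.1 hx ▸ hQ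
  | algebraMap c => exact fun v hv => Q.smul_mem c hv
  | add x y _ _ hx hy => exact fun v hv => Q.add_mem (hx v hv) (hy v hv)
  | mul x y _ _ hx hy => exact fun v hv => hx _ (hy v hv)

theorem sg_mod {s f : End ℂ H} (h : IsSg s f) {Q Q' : Submodule ℂ H} (hQ : Keeps f Q)
    (hQ' : Keeps f Q') (hf : ∀ v ∈ Q, f v - v ∈ Q') (v : H) (hv : v ∈ Q) : s v - v ∈ Q' := by
  have k1 := sg_keeps h hQ
  have k2 := sg_keeps h hQ'
  have ss : ∀ x, s (s x) = x := fun x => LinearMap.congr_fun h.1 x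
  have a1 : ∀ w ∈ Q, (s * f - 1) w - (s w - w) ∈ Q' := fun w hw => by
    have := k2 _ (hf w hw)
    rw [map_sub] at this
    simpa using this
  have a2 : ∀ n : ℕ, ((s * f - 1) ^ (n + 1)) v - (-2 : ℂ) ^ n • (s v - v) ∈ Q' := fun n => by
    induction n with
    | zero => simpa using a1 v hv
    | succ n ih =>
      have b1 : (s * f - 1) (((s * f - 1) ^ (n + 1)) v - (-2 : ℂ) ^ n • (s v - v)) ∈ Q' :=
        Q'.sub_mem (k2 _ (hQ' _ ih)) ih
      have b2 := Q'.smul_mem ((-2 : ℂ) ^ n) (a1 _ (Q.sub_mem (k1 v hv) hv))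
      have b3 := Q'.add_mem b1 b2
      rw [map_sub, map_smul, smul_sub, sub_add_sub_cancel, map_sub s, ss] at b3
      rw [pow_succ' _ (n + 1), End.mul_apply, pow_succ (-2 : ℂ), mul_smul,
        show (-2 : ℂ) • (s v - v) = v - s v - (s v - v) by module]
      exact b3
  obtain ⟨n, hn⟩ := h.2.2
  have := a2 n
  rw [pow_succ', hn, mul_zero, LinearMap.zero_apply, zero_sub, Q'.neg_mem_iff] at this
  exact (Q'.smul_mem_iff (pow_ne_zero _ (by norm_num))).1 this

theorem sg_fix {s f : End ℂ H} (h : IsSg s f) {v : H} (hv : f v = v) : s v = v := by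
  have m : ∀ w, w ∈ LinearMap.ker (f - 1) ↔ f w = w := fun w => by simp [sub_eq_zero]
  have := sg_mod h (Q := LinearMap.ker (f - 1)) (Q' := ⊥)
    (fun w hw => (m _).2 (by rw [(m w).1 hw, (m w).1 hw]))
    (fun w hw => by rw [(Submodule.mem_bot ℂ).1 hw, map_zero]; exact zero_mem _)
    (fun w hw => by rw [(m w).1 hw, sub_self]; exact zero_mem _) v ((m v).2 hv)
  exact sub_eq_zero.1 ((Submodule.mem_bot ℂ).1 this)

theorem sg_neg {s f : End ℂ H} (h : IsSg s f) : IsSg (-s) (-f) :=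
  ⟨by rw [neg_mul_neg, h.1], h.2.1.neg_left.neg_right, by rw [neg_mul_neg]; exact h.2.2⟩

theorem sg_gen {s f : End ℂ H} (h : IsSg s f) (n : ℕ) (v : H) (hv : ((f - 1) ^ n) v = 0) :
    s v = v := by
  induction n generalizing v with
  | zero => rw [show v = 0 by simpa using hv, map_zero]
  | succ n ih =>
    have a1 : s (f v - v) = f v - v := ih _ (by rw [pow_succ] at hv; simpa using hv)
    have a2 : s (f v) = f (s v) := LinearMap.congr_fun h.2.1.eq v
    have a3 : f (s v - v) = s v - v := by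
      rw [map_sub, a2] at a1
      rw [map_sub, sub_eq_sub_iff_sub_eq_sub, a1]
    have a4 := sg_fix h a3
    rw [map_sub, show s (s v) = v from LinearMap.congr_fun h.1 v] at a4
    have a5 : (2 : ℂ) • (s v - v) = 0 := by
      rw [two_smul]; nth_rewrite 1 [← a4]; abel
    exact sub_eq_zero.1 ((smul_eq_zero_iff_right two_ne_zero).1 a5)

theorem sg_on {s f : End ℂ H} (h : IsSg s f) {Q : Submodule ℂ H} (hQ : Keeps f Q) :
    (∀ v ∈ Q, s v = v) ↔ UniOn f Q := by
  refine ⟨fun hs => ?_, fun ⟨n, hn⟩ v hv => sg_gen h n v (hn v hv)⟩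
  obtain ⟨n, hn⟩ := h.2.2
  have a : ∀ m : ℕ, ∀ v ∈ Q, ((f - 1) ^ m) v = ((s * f - 1) ^ m) v := fun m => by
    induction m with
    | zero => simp
    | succ m ih =>
      intro v hv
      have e : (s * f - 1) v = (f - 1) v := by simp [hs _ (hQ v hv)]
      rw [pow_succ, pow_succ, End.mul_apply, End.mul_apply, e]
      exact ih _ (Q.sub_mem (hQ v hv) hv)
  exact ⟨n, fun v hv => by rw [a n v hv, hn, LinearMap.zero_apply]⟩

theorem sg_conj {s f u u' : End ℂ H} (h : IsSg s f) (h1 : u * u' = 1) (h2 : u' * u = 1) :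
    IsSg (u * s * u') (u * f * u') := by
  have e : ∀ x y : End ℂ H, u * x * u' * (u * y * u') = u * (x * y) * u' := fun x y => by
    rw [show u * x * u' * (u * y * u') = u * (x * ((u' * u) * y)) * u' by noncomm_ring, h2, one_mul]
  refine ⟨by rw [e, h.1, mul_one, h1], by rw [Commute, SemiconjBy, e, e, h.2.1.eq], ?_⟩
  obtain ⟨n, hn⟩ := h.2.2
  refine ⟨n, ?_⟩
  rw [e, show u * (s * f) * u' - 1 = u * (s * f - 1) * u' by rw [mul_sub, sub_mul, mul_one, h1]]
  exact (Units.conj_pow ⟨u, u', h1, h2⟩ _ n).trans (by rw [hn, mul_zero, zero_mul])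

theorem sg_inv {s f f' : End ℂ H} (h : IsSg s f) (h1 : f * f' = 1) (h2 : f' * f = 1) :
    IsSg s f' := by
  have cf : Commute f' f := h2.trans h1.symm
  have c := (sg_comm h cf).symm
  refine ⟨h.1, c, ?_⟩
  have e : s * f' * (s * f) = 1 := by
    rw [mul_assoc, ← mul_assoc f', ← c.eq, mul_assoc, h2, mul_one, h.1]
  rw [Uni, show s * f' - 1 = -(s * f') * (s * f - 1) by rw [mul_sub, neg_mul, e]; noncomm_ring]
  exact (((((Commute.refl s).mul_right h.2.1).mul_left (c.symm.mul_right cf)).sub_right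
    (Commute.one_right _)).neg_left).isNilpotent_mul_left h.2.2

theorem sg_mul {s f s' f' : End ℂ H} (h : IsSg s f) (h' : IsSg s' f') (c : Commute f f') :
    Commute s s' ∧ IsSg (s * s') (f * f') := by
  have c1 := sg_comm h' c
  have c2 := (sg_comm h c.symm).symm
  have c3 := (sg_comm h c1.symm).symm
  refine ⟨c3, by rw [c3.symm.mul_mul_mul_comm, h.1, h'.1, one_mul],
    (h.2.1.mul_right c2).mul_left (c1.symm.mul_right h'.2.1), ?_⟩
  rw [c1.symm.mul_mul_mul_comm]
  exact uni_mul h.2.2 h'.2.2 ((c3.mul_right c2).mul_left (c1.mul_right c))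

theorem ssg : SSg := fun _ _ _ _ _ =>
  ⟨fun h => (sg_ex h).imp fun _ h => h.2, fun _ h =>
    ⟨sg_mem h, fun _ h' => sg_eq h' h (sg_comm h h'.2.1), fun _ => sg_comm h,
      fun _ => sg_keeps h, fun _ _ => sg_mod h, fun _ => sg_fix h,
      fun v hv => neg_eq_iff_eq_neg.1 (sg_fix (sg_neg h) (v := v) (neg_eq_iff_eq_neg.2 hv)),
      fun _ => sg_on h, fun _ _ h1 => sg_conj h h1 (mul_eq_one_comm.1 h1),
      fun _ h1 => sg_inv h h1 (mul_eq_one_comm.1 h1), fun _ _ => sg_mul h⟩⟩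

theorem sst (_h : SSg) : SSt := by
  intro ι H _ _ _ _ _ r hq hk
  have un : ∀ {s t f : End ℂ H}, IsSg s f → IsSg t f → s = t := fun h h' =>
    sg_eq h h' (sg_comm h' h.2.1)
  have iv : ∀ {s : End ℂ H} {g : A ι}, IsSg s (r g) → IsSg s (r g⁻¹) := fun h =>
    sg_inv h (by rw [← map_mul, mul_inv_cancel, map_one]) (by rw [← map_mul, inv_mul_cancel, map_one])
  have cj : ∀ {s : End ℂ H} {g : A ι} (u : A ι), IsSg s (r g) →
      IsSg (r u * s * r u⁻¹) (r (u * g * u⁻¹)) := fun u h => by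
    rw [map_mul, map_mul]
    exact sg_conj h (by rw [← map_mul, mul_inv_cancel, map_one])
      (by rw [← map_mul, inv_mul_cancel, map_one])
  have tr : ∀ {s t : End ℂ H} {g g' : A ι} (u : A ι), IsSg s (r g) → IsSg t (r g') →
      u * g * u⁻¹ = g' → r u * s = t * r u := fun u h h' e => by
    rw [← un (e ▸ cj u h) h', mul_assoc, ← map_mul, inv_mul_cancel, map_one, mul_one]
  have ex : ∀ a b : ι, ∃ s, a ≠ b → IsSg s (r (rh a b)) := fun a b => by
    by_cases h : a = b
    · exact ⟨1, fun k => (k h).elim⟩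
    · obtain ⟨s, -, hs⟩ := sg_ex (hq a {b} (by simp) (by simpa using h) (FreeGroup.of b)
        (of_mem_FS (by simp)))
      exact ⟨s, fun _ => rh_eq h ▸ hs⟩
  choose s hs using ex
  have hl : ∀ a b, a ≠ b → IsSg (s a b) (r (la a b)) := fun a b h => by
    have h1 : IsSg 1 (r (kk a b)) := ⟨one_mul 1, Commute.one_left _, by rw [one_mul]; exact hk a b h⟩
    have c : Commute (kk a b)⁻¹ (rh a b) :=
      ((Commute.refl _).mul_left (commute_rh_la h h).symm.inv_left).inv_left
    have := (sg_mul (iv h1) (hs a b h) (c.map r)).2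
    rwa [one_mul, ← map_mul, kk, mul_inv_rev, inv_inv, inv_mul_cancel_right] at this
  have ei : ∀ c : ι, (ep c : A ι)⁻¹ = ep c := fun c => inv_eq_of_mul_eq_one_right (ep_sq c)
  refine ⟨s, ⟨fun a b h => (hs a b h).1, fun a b c d h1 h2 h3 h4 =>
    (sg_mul (hs a b h1) (hl c d h2) (((N0 ι).ρ_lam a b c d h1 h2 h4 h3.symm).map r)).1,
    fun a b c h1 h2 h3 => ?_⟩, fun a b h => ⟨hs a b h, hl a b h⟩, fun a b c h => ?_,
    fun σ a b h => tr _ (hs a b h) (hs _ _ (σ.injective.ne h)) (by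
      rw [pm_rh, mul_inv_cancel_right])⟩
  · have c1 : Commute (rh b c) (la a c)⁻¹ := ((N0 ι).ρ_lam b c a c h2 h3 h2 h3).inv_right
    have e1 := (sg_mul (hs b c h2) (iv (hl a c h3)) (c1.map r)).2
    rw [← map_mul] at e1
    have e2 := tr (la a b) (hs b c h2) e1 ((N0 ι).conj_lam b c a h2 h1 h3)
    have i1 := (hs b c h2).1
    have i2 := (hs a c h3).1
    have e3 : s b c * r (la a b) * s b c = s a c * r (la a b) := by
      rw [mul_assoc, e2, ← mul_assoc, ← mul_assoc, i1, one_mul]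
    have e4 : IsSg (s a c) (s a c) := ⟨i2, Commute.refl _, by rw [i2, Uni, sub_self]; exact .zero⟩
    have c2 : Commute (s a c) (r (la a b)) :=
      (sg_comm (hs a c h3) ((commute_rh_la h3 h1).symm.map r)).symm
    have e5 := un (e3 ▸ sg_conj (hl a b h1) i1 i1) (sg_mul e4 (hl a b h1) c2).2
    calc s a b * s b c * s a b = s b c * (s b c * s a b * s b c) * s a b := by
          rw [← mul_assoc, ← mul_assoc, i1, one_mul]
      _ = s b c * s a c := by rw [e5, mul_assoc, mul_assoc, (hs a b h1).1, mul_one]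
  · by_cases k1 : c = a
    · subst k1
      exact (tr (ep c) (hs c b h) (iv (hl c b h)) (by rw [ei]; exact (N0 ι).ε_left c b h)).symm
    by_cases k2 : c = b
    · subst k2
      exact (tr (ep c) (hs a c h) (iv (hs a c h)) (by rw [ei]; exact (N0 ι).ε_right a c h)).symm
    · exact (sg_comm (hs a b h) (((N0 ι).ε_other a b c h k1 k2).map r)).symm

end Pool.Agent.MP_3ce0a0_al.H28
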